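import Pool.Agent.Q72.PW.Main

/-!
# Symplectic bundles with many diagonal symmetries suffice

Let `n ≥ 1` and let `e` be positive and even.  Every rank two bundle on `P^n` splits if and only if
every rank two bundle `E` with `c₁(E) = 0` which is the kernel of a homogeneous matrix of
polynomials in `x_0 ^ e, ..., x_n ^ e` splits.

The pull-back `F` of a bundle `E` under the map `x_i ↦ x_i ^ e`, twisted by `O(- e c₁(E) / 2)`, has
these properties.  If `F` splits, let `G₁, G₂` be sections of twists of `F` which form a basis of
each fibre.  Keeping only the monomials in the `x_i ^ e` one gets sections `H₁, H₂` of twists of `E`;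
the differences are multiples of coordinates, so the wedge product of `H₁` and `H₂` has the same
constant coefficient as that of `G₁` and `G₂`, and it is homogeneous; so it is a non-zero constant
and `E` splits.
-/

set_option autoImplicit false

open H960VB Pool.Agent.Q72.PW

namespace Pool.Agent.Results.MP_b01859_ag.PowersOfCoordinates

theorem result (n e : ℕ) (hn : 1 ≤ n) (he : 0 < e) (h2 : Even e) :
    (∀ E : Bundle2 n, E.Splits) ↔
      ∀ E : Bundle2 n, HasC1 E 0 → (∀ k i, ∃ b, E.B k i = MvPolynomial.expand e b) →
        E.Splits := by
  constructor
  · intro h E _ _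
    exact h E
  · intro h E
    obtain ⟨c, hc⟩ := exists_c1 hn E
    obtain ⟨f, hf⟩ := h2
    apply splits_of_pull hn he (-(f * c))
    apply h
    · have h1 := hasC1_pull hc e he (-(f * c))
      have h3 : (e : ℤ) * c + 2 * -(f * c) = 0 := by
        rw [hf]; push_cast; ring
      rwa [h3] at h1
    · intro k i
      exact ⟨E.B k i, rfl⟩

end Pool.Agent.Results.MP_b01859_ag.PowersOfCoordinates
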