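import Pool.Agent.Q72.PW.Main

/-!
# Stable and unstable rank two bundles: a gap for the degrees of sections may be assumed

A rank two bundle `E` on `P^n` is stable if `c₁(E(d)) > 0` whenever `E(d)` has a non-zero section,
and unstable if some `E(d)` with `c₁(E(d)) < 0` has a non-zero section.  Let `k ≥ 1`.  A stable rank
two bundle on `P^n` exists if and only if there is a rank two bundle with `c₁ = 0` such that `E(k)`
has no non-zero section; all unstable ones split if and only if all `E` with `c₁ = 0` such that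
`E(-k)` has a non-zero section split.

The proof uses pull-backs under the maps `x_i ↦ x_i ^ e`.
-/

set_option autoImplicit false

open H960VB Pool.Agent.Q72.PW

namespace Pool.Agent.Results.MP_b01859_ag.SectionGap

/-- `E` is stable (in the sense of slopes) -/
def Stable {n : ℕ} (E : Bundle2 n) : Prop :=
  ∃ c, HasC1 E c ∧ ∀ d, HasSec E d → 0 < c + 2 * d

/-- `E` is unstable: not semistable -/
def Unstable {n : ℕ} (E : Bundle2 n) : Prop :=
  ∃ c, HasC1 E c ∧ ∃ d, HasSec E d ∧ c + 2 * d < 0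

/-- the pull-back under the map `x_i ↦ x_i ^ (2 f)` with first Chern class zero -/
theorem norm {n : ℕ} {E : Bundle2 n} {c : ℤ} (hc : HasC1 E c) (f : ℕ) (hf : 0 < 2 * f) :
    HasC1 (pull E (2 * f) hf (-(f * c))) 0 ∧
    (∀ d, HasSec E d → HasSec (pull E (2 * f) hf (-(f * c))) (f * (c + 2 * d))) ∧
    ∀ d, HasSec (pull E (2 * f) hf (-(f * c))) d → ∃ d', HasSec E d' ∧ f * (c + 2 * d') ≤ d := by
  refine ⟨?_, ?_, ?_⟩
  · have h1 := hasC1_pull hc (2 * f) hf (-(f * c))
    have h3 : ((2 * f : ℕ) : ℤ) * c + 2 * -(f * c) = 0 := by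
      push_cast; ring
    rwa [h3] at h1
  · intro d hd
    have h1 := hd.pull hf (-(f * c))
    have h3 : ((2 * f : ℕ) : ℤ) * d - -(f * c) = f * (c + 2 * d) := by
      push_cast; ring
    rwa [h3] at h1
  · intro d hd
    obtain ⟨d', h1, h2⟩ := HasSec.of_pull hf _ hd
    refine ⟨d', h1, ?_⟩
    push_cast at h2
    linarith

theorem result (n k : ℕ) (hn : 1 ≤ n) (hk : 1 ≤ k) :
    -- stable bundles
    ((∃ E : Bundle2 n, Stable E) ↔ ∃ E : Bundle2 n, HasC1 E 0 ∧ ¬ HasSec E k) ∧
    -- unstable bundles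
    ((∀ E : Bundle2 n, Unstable E → E.Splits) ↔
      ∀ E : Bundle2 n, HasC1 E 0 → HasSec E (-k) → E.Splits) ∧
    -- all bundles
    ((∀ E : Bundle2 n, E.Splits) ↔
      ∀ E : Bundle2 n, HasC1 E 0 →
        (¬ HasSec E k ∨ HasSec E (-k) ∨ (HasSec E 0 ∧ ¬ HasSec E (-1))) → E.Splits) := by
  have hk' : (1 : ℤ) ≤ k := by exact_mod_cast hk
  -- the three cases
  have st : ∀ (E : Bundle2 n) (c : ℤ), HasC1 E c → (∀ d, HasSec E d → 0 < c + 2 * d) →
      ¬ HasSec (pull E (2 * (k + 1)) (by omega) (-(((k + 1 : ℕ) : ℤ) * c))) k := by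
    intro E c hc h hs
    obtain ⟨d', h1, h2⟩ := (norm hc (k + 1) (by omega)).2.2 _ hs
    have h3 := h d' h1
    push_cast at h2
    nlinarith
  have un : ∀ (E : Bundle2 n) (c : ℤ), HasC1 E c → (∃ d, HasSec E d ∧ c + 2 * d < 0) →
      HasSec (pull E (2 * k) (by omega) (-((k : ℤ) * c))) (-k) := by
    rintro E c hc ⟨d, h1, h2⟩
    refine ((norm hc k (by omega)).2.1 d h1).mono ?_
    nlinarith
  refine ⟨⟨?_, ?_⟩, ⟨?_, ?_⟩, ⟨?_, ?_⟩⟩
  · rintro ⟨E, c, hc, h⟩
    exact ⟨_, (norm hc (k + 1) (by omega)).1, st E c hc h⟩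
  · rintro ⟨E, hc, h⟩
    refine ⟨E, 0, hc, fun d hd => ?_⟩
    by_contra hcon
    exact h (hd.mono (by omega))
  · intro h E hc hs
    exact h E ⟨0, hc, -k, hs, by omega⟩
  · rintro h E ⟨c, hc, hd⟩
    exact splits_of_pull hn _ _ (h _ (norm hc k (by omega)).1 (un E c hc hd))
  · intro h E _ _
    exact h E
  · intro h E
    obtain ⟨c, hc⟩ := exists_c1 hn E
    by_cases h1 : ∀ d, HasSec E d → 0 < c + 2 * d
    · exact splits_of_pull hn _ _ (h _ (norm hc (k + 1) (by omega)).1 (Or.inl (st E c hc h1)))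
    · by_cases h2 : ∃ d, HasSec E d ∧ c + 2 * d < 0
      · exact splits_of_pull hn _ _
          (h _ (norm hc k (by omega)).1 (Or.inr (Or.inl (un E c hc h2))))
      · push Not at h1 h2
        obtain ⟨d, hd, hd'⟩ := h1
        have hd0 : c + 2 * d = 0 := le_antisymm hd' (h2 d hd)
        refine splits_of_pull hn (e := 2 * 1) (by omega) (-(((1 : ℕ) : ℤ) * c))
          (h _ (norm hc 1 (by omega)).1 (Or.inr (Or.inr ⟨?_, ?_⟩)))
        · have h3 := (norm hc 1 (by omega)).2.1 d hd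
          rw [hd0, mul_zero] at h3
          exact h3
        · intro hs
          obtain ⟨d', h4, h5⟩ := (norm hc 1 (by omega)).2.2 _ hs
          have h6 := h2 d' h4
          push_cast at h5
          linarith

end Pool.Agent.Results.MP_b01859_ag.SectionGap
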