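import Pool.Agent.H960R2.VB.Defs
import Pool.Agent.Q233.SW.Mod

set_option autoImplicit false

/-!
# Chern classes of rank two bundles on `P^n`

The conditions of Schwarzenberger for the Chern classes of a rank two bundle on `P^n` (integrality of
the Riemann-Roch polynomial) imply that the second Chern class of a suitable twist is divisible by a
number of size `exp ((3/2 + o(1)) n)`, and that the discriminant `c₁² - 4 c₂` is a perfect square or
large.
-/

open Finset H960VB MvPolynomial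

namespace Pool.Agent.Results.MP_b01859_ag.TwistDivisibility

lemma HomZ.add {σ : Type*} {p q : MvPolynomial σ ℂ} {d : ℤ} (hp : HomZ p d) (hq : HomZ q d) :
    HomZ (p + q) d := by
  rcases hp with rfl | ⟨k, hk, hp⟩
  · simpa using hq
  · rcases hq with rfl | ⟨l, hl, hq⟩
    · right; exact ⟨k, hk, by simpa using hp⟩
    · right
      have : k = l := by omega
      subst this
      exact ⟨k, hk, hp.add hq⟩

lemma HomZ.smul {σ : Type*} {p : MvPolynomial σ ℂ} {d : ℤ} (c : ℂ) (hp : HomZ p d) :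
    HomZ (c • p) d := by
  rcases hp with rfl | ⟨k, hk, hp⟩
  · left; simp
  · right
    refine ⟨k, hk, ?_⟩
    rw [MvPolynomial.smul_eq_C_mul]
    simpa using (MvPolynomial.isHomogeneous_C _ c).mul hp

/-- the space `H⁰(P^n, E(d))` of global sections of the twist `E(d)` -/
noncomputable def sections {n : ℕ} (E : Bundle2 n) (d : ℤ) :
    Submodule ℂ (Fin E.a → MvPolynomial (Fin (n + 1)) ℂ) where
  carrier := {G | E.IsSection d G}
  zero_mem' := by
    refine ⟨fun i => Or.inl rfl, fun x _ => ?_⟩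
    have : evv (0 : Fin E.a → MvPolynomial (Fin (n + 1)) ℂ) x = 0 := by
      funext i; simp [evv]
    rw [this]; exact Submodule.zero_mem _
  add_mem' := by
    intro G H hG hH
    refine ⟨fun i => HomZ.add (hG.1 i) (hH.1 i), fun x hx => ?_⟩
    have : evv (G + H) x = evv G x + evv H x := by funext i; simp [evv]
    rw [this]; exact Submodule.add_mem _ (hG.2 x hx) (hH.2 x hx)
  smul_mem' := by
    intro c G hG
    refine ⟨fun i => HomZ.smul c (hG.1 i), fun x hx => ?_⟩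
    have : evv (c • G) x = c • evv G x := by
      funext i; simp [evv]
    rw [this]; exact Submodule.smul_mem _ _ (hG.2 x hx)

/-- `c₁, c₂` are the Chern classes of `E`: with the Chern roots `x, y` (`x + y = c₁`, `x y = c₂`) the
theorem of Hirzebruch-Riemann-Roch holds, that is
`dim H⁰(E(d)) = C(x + d + n, n) + C(y + d + n, n)` for all large `d`. -/
def HasChern {n : ℕ} (E : Bundle2 n) (c₁ c₂ : ℤ) : Prop :=
  ∃ x y : ℂ, x + y = c₁ ∧ x * y = c₂ ∧ ∃ d₀ : ℤ, ∀ d : ℤ, d₀ ≤ d →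
    (n.factorial : ℂ) * (Module.finrank ℂ (sections E d) : ℂ) =
      ∏ i ∈ range n, (x + d + (i + 1)) + ∏ i ∈ range n, (y + d + (i + 1))

lemma prod_bin (x : ℂ) (d : ℤ) (n : ℕ) : ∏ i ∈ range n, (x + d + (i + 1)) =
    (n.factorial : ℂ) * Pool.Agent.Q233.SW.bin (x + ((d + n : ℤ) : ℂ)) n := by
  unfold Pool.Agent.Q233.SW.bin
  rw [mul_div_cancel₀ _ (Pool.Agent.Q233.SW.fact_ne n), ← Finset.prod_range_reflect]
  refine prod_congr rfl fun j hj => ?_
  have hj' := mem_range.1 hj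
  have e : ((n - 1 - j : ℕ) : ℂ) = (n : ℂ) - 1 - j := by
    rw [Nat.cast_sub (by omega), Nat.cast_sub (by omega)]; simp
  rw [e]
  push_cast; ring

/-- Let `E` be a vector bundle of rank two on `P^n` with Chern classes `c₁, c₂`.

(1) There is an integer `a` such that `lcm(1, ..., ⌊n/2⌋)² ∏_{n/2 < p < n} p` (product over primes)
divides `2 c₂(E(a)) = 2 (c₂ + c₁ a + a²)`.

(2) For all `s`, `(k!)²` divides `2 ∏_{i < k} c₂(E(s - i))` if `2 k ≤ n`, and it divides
`(c₁² - 4 c₂) ∏_{i < k} c₂(E(s - i))` if `k < n`.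

(3) Let `n ≥ 4`. If `c₁² - 4 c₂ ≤ (n - 3)²` and `5 (4 c₂ - c₁²) + 4 ≤ (n - 1)²`, then
`c₁² - 4 c₂` is a perfect square, that is, `E` has the Chern classes of a direct sum of two line
bundles. -/
theorem result {n : ℕ} (E : Bundle2 n) (c₁ c₂ : ℤ) (hE : HasChern E c₁ c₂) :
    (∃ a : ℤ, (((Finset.Icc 1 (n / 2)).lcm id : ℕ) : ℤ) ^ 2 *
        ∏ p ∈ (Finset.Ioo (n / 2) n).filter Nat.Prime, (p : ℤ) ∣ 2 * (c₂ + c₁ * a + a ^ 2)) ∧
    ((∀ k : ℕ, 2 * k ≤ n → ∀ s : ℤ, (k.factorial : ℤ) ^ 2 ∣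
        2 * ∏ i ∈ range k, (c₂ + c₁ * (s - i) + (s - i) ^ 2)) ∧
      ∀ k : ℕ, k < n → ∀ s : ℤ, (k.factorial : ℤ) ^ 2 ∣
        (c₁ ^ 2 - 4 * c₂) * ∏ i ∈ range k, (c₂ + c₁ * (s - i) + (s - i) ^ 2)) ∧
    (4 ≤ n → c₁ ^ 2 - 4 * c₂ ≤ ((n : ℤ) - 3) ^ 2 → 5 * (4 * c₂ - c₁ ^ 2) + 4 ≤ ((n : ℤ) - 1) ^ 2 →
      ∃ p q : ℤ, c₁ = p + q ∧ c₂ = p * q) := by
  obtain ⟨x, y, hs, hp, d₀, hd⟩ := hE
  have hint : ∀ k ≤ n, ∀ s : ℤ, Pool.Agent.Q233.SW.IsInt (Pool.Agent.Q233.SW.F x y k s) := by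
    refine Pool.Agent.Q233.SW.int_all x y n (d₀ + n) fun s hs => ?_
    refine ⟨(Module.finrank ℂ (sections E (s - n)) : ℤ), ?_⟩
    have h1 := hd (s - n) (by omega)
    rw [prod_bin, prod_bin, ← mul_add] at h1
    have h2 := mul_left_cancel₀ (Pool.Agent.Q233.SW.fact_ne n) h1
    rw [show s - (n : ℤ) + n = s by ring] at h2
    unfold Pool.Agent.Q233.SW.F
    rw [← h2]
    push_cast; rfl
  have e : ∀ t : ℤ, c₂ + c₁ * t + t ^ 2 = t ^ 2 + c₁ * t + c₂ := fun t => by ring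
  refine ⟨?_, ⟨?_, ?_⟩, ?_⟩
  · obtain ⟨a, ha⟩ := Pool.Agent.Q233.SW.modulus hs hp hint
    exact ⟨a, by rw [e]; exact ha⟩
  · intro k hk s
    simp only [e]
    exact Pool.Agent.Q233.SW.norm_dvd hs hp hint hk s
  · intro k hk s
    simp only [e]
    exact Pool.Agent.Q233.SW.disc_dvd hs hp hint (by omega) s
  · intro hn h1 h2
    rcases Pool.Agent.Q233.SW.arch hs hp hn hint with h3 | h3 | h3
    · obtain ⟨r, hr⟩ := h3
      -- `c₁` and `r` have the same parity
      have h4 : (2 : ℤ) ∣ c₁ - r := by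
        have h5 : (2 : ℤ) ∣ (c₁ - r) * (c₁ + r) := ⟨2 * c₂, by linear_combination hr⟩
        rcases Int.prime_two.dvd_or_dvd h5 with h6 | h6
        · exact h6
        · have : c₁ - r = (c₁ + r) - 2 * r := by ring
          rw [this]; exact dvd_sub h6 (dvd_mul_right _ _)
      obtain ⟨q, hq⟩ := h4
      have h7 : c₁ = r + 2 * q := by linear_combination hq
      refine ⟨r + q, q, by rw [h7]; ring, ?_⟩
      have h8 : 4 * c₂ = 4 * ((r + q) * q) := by
        rw [h7] at hr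
        linear_combination -hr
      omega
    · omega
    · have : 5 * (4 * c₂ - c₁ ^ 2) + 4 = -5 * (c₁ ^ 2 - 4 * c₂) + 4 := by ring
      omega

end Pool.Agent.Results.MP_b01859_ag.TwistDivisibility
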